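import Mathlib
import Pool.Agent.H60.W.C.Fww
import Pool.Agent.H59.W.CrnW
import Pool.Agent.H95.W.N.WeD
import Pool.Agent.H95.W.N.Str

set_option autoImplicit false
open Finset

/-!
# The structure `EdgA` from the arcs of the layer tiles, the walls `WD` (port of `H59/W/EdgA`)
-/

namespace Pool.Agent.H60.W.N

open Pool.Agent.H33.Q1 (lt tt tt_lt)
open Pool.Agent.H54.W (Win)
open Pool.Agent.H72.W.N
open Pool.Agent.H31.Sp (CQ Ed verS posS)
open Pool.Agent.H42.Sp (Sd)
open Pool.Agent.H13.R45 (gp ev_true ev_false)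
open Pool.Agent.H39.Q1 (TF mem_TF gm tc gm_gm sgb gm_inj)
open Pool.Agent.H54.Sp (eS dS)
open Pool.Agent.H44.FM.AsmW (TW mem_TW)
open Pool.Agent.H59.W
open Pool.Agent.H95.W.N

variable {D : Win} {n H : ℤ} {A B : ℤ → ℤ} {p : Bool} {s0 u v x y : ℤ} {s : Sd} {c : Bool}
  {w w' w0 : KL H A B} {g : ℤ × ℤ}

lemma div_rng (hn : 0 < n) (a : ℤ) : n * (a / n) ≤ a ∧ a < n * (a / n) + n := by
  have h1 := Int.emod_add_mul_ediv a n
  have h2 := Int.emod_nonneg a hn.ne'
  have h3 := Int.emod_lt_of_pos a hn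
  omega

/-- **The edges and arcs of the layer tiles.** -/
theorem edgA (hB : ArcB D n H A B p s0) (C : Coarse D n H A B) : EdgA D n H A B p s0 where
  hn := C.hn
  nR := hB.nR
  ed := by
    have hn := C.pos
    intro s u v hs h
    cases s
    · obtain ⟨h1, h2, h3, h4, h5⟩ := hB.L u v h
      have h6 := div_rng hn v
      refine ⟨⟨(.L, (u + sh p + 1) / n, v / n), mem_EdL.2 ⟨⟨h2, h3⟩, by simp⟩⟩, rfl, v, ?_, ?_, ?_, ?_⟩
      · show n * (v / n) ≤ v ∧ v < n * (v / n) + n
        omega
      · show (n * ((u + sh p + 1) / n) - sh p - 1, v) = (u, v)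
        exact Prod.ext (by simp only; omega) rfl
      · rw [h4]; unfold fwD verS; simp only [if_true]
      · simp only [dr, sub_zero]
        rw [h5]; unfold fwD verS; simp only [if_true]
    · exact absurd rfl hs
    · obtain ⟨h1, h2, h3, h4, h5⟩ := hB.F u v h
      have h6 := div_rng hn (u + sh p)
      refine ⟨⟨(.F, (u + sh p) / n, (v + 1) / n), mem_EdL.2 ⟨⟨h2, h3⟩, by simp⟩⟩, rfl, u, ?_, ?_, ?_, ?_⟩
      · show n * ((u + sh p) / n) - sh p ≤ u ∧ u < n * ((u + sh p) / n) - sh p + n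
        omega
      · show (u, n * ((v + 1) / n) - 1) = (u, v)
        exact Prod.ext rfl (by simp only; omega)
      · rw [h4]; unfold fwD verS; simp only [Bool.false_eq_true, if_false]
      · simp only [dr, sub_zero]
        rw [h5]; unfold fwD verS; simp only [Bool.false_eq_true, if_false]
    · obtain ⟨h1, h2, h3, h4, h5⟩ := hB.C u v h
      have h6 := div_rng hn (u + sh p)
      refine ⟨⟨(.C, (u + sh p) / n, v / n), mem_EdL.2 ⟨⟨h3, h2⟩, by simp⟩⟩, rfl, u, ?_, ?_, ?_, ?_⟩
      · show n * ((u + sh p) / n) - sh p ≤ u ∧ u < n * ((u + sh p) / n) - sh p + n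
        omega
      · show (u, n * (v / n)) = (u, v)
        exact Prod.ext rfl (by simp only; omega)
      · rw [h4]; unfold fwD verS; simp only [Bool.false_eq_true, if_false]
      · simp only [dr, sub_zero, sub_neg_eq_add]
        rw [h5]; unfold fwD verS; simp only [Bool.false_eq_true, if_false]
  ad := by
    have hn := C.pos
    rintro ⟨⟨s, X, Y⟩, hw⟩ ⟨⟨s', X', Y'⟩, hw'⟩ h1 h2 h3
    simp only at h1
    subst h1
    rw [mem_EdL] at hw hw'
    obtain ⟨hw, hs⟩ := hw
    obtain ⟨hw', -⟩ := hw'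
    cases s <;> simp only [lnW, bW, verS, if_true, Bool.false_eq_true, if_false] at h2 h3 <;>
      simp only [Ed] at hw hw'
    · have e1 : X' = X := mul_left_cancel₀ hn.ne' (by linarith)
      have e2 : Y' = Y + 1 := mul_left_cancel₀ hn.ne' (by linarith)
      subst e1
      subst e2
      obtain ⟨a1, a2⟩ := hw
      obtain ⟨b1, b2⟩ := hw'
      unfold fwD
      simp only [verS, if_true]
      obtain ⟨c1, c2, c3, c4⟩ := a1
      obtain ⟨d1, d2, d3, d4⟩ := b1
      refine hB.eL Y c1 d2 ?_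
      unfold H31.Sp.CQ at a2 b2
      omega
    · exact absurd rfl hs
    · have e1 : X' = X + 1 := mul_left_cancel₀ hn.ne' (by linarith)
      have e2 : Y' = Y := mul_left_cancel₀ hn.ne' (by linarith)
      subst e1
      subst e2
      obtain ⟨a1, a2⟩ := hw
      obtain ⟨b1, b2⟩ := hw'
      unfold fwD
      simp only [verS, Bool.false_eq_true, if_false]
      rw [hA_in a1, hA_in b1]
    · have e1 : X' = X + 1 := mul_left_cancel₀ hn.ne' (by linarith)
      have e2 : Y' = Y := mul_left_cancel₀ hn.ne' (by linarith)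
      subst e1
      subst e2
      obtain ⟨a1, a2⟩ := hw
      obtain ⟨b1, b2⟩ := hw'
      unfold fwD
      simp only [verS, Bool.false_eq_true, if_false]
      rw [hA_out a1, hA_out b1]

/-- **The walls of a window.** -/
theorem wdD (hB : ArcB D n H A B p s0) (C : Coarse D n H A B) {Dd m : ℤ} {Q : ℝ}
    (hD : 4 * Dd + 40 ≤ n) (hD0 : 0 ≤ Dd) (hm : 2 * Dd + 7 ≤ m) (hQ : (n : ℝ) ≤ 2 * (Q * Dd))
    (w0 : KL H A B) :
    WD (LBA D p (m + 1)) (TA D p) (fmA D p s0) (colp D) (LaA D p s0 m) (bA D p)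
      (wlD D n H A B p w0) (fwD D n H A B s0) (epD H A B) (x0D D n H A B p s0) (ND D n H A B p s0)
      Dd Q := by
  have hE : EdgA D n H A B p s0 := edgA hB C
  have hq := fun w => hqD (p := p) C (show 16 ≤ n by omega) w
  exact
    { dBT := dBT_D
      laB := laB_D
      fww := fun w => fww_D hE hq w0 w m
      we := fun w => weD hB C hD hD0 hm w
      sep := fun w w' hne => sep_D hE hq w0 w w' m hne
      len := fun w => lenD C (by omega) hQ w }

end Pool.Agent.H60.W.N
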