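import Mathlib
import Pool.Agent.H60.W.C.EdgA
import Pool.Agent.H60.W.SegR
import Pool.Agent.H54.W.Flat
import Pool.Agent.H22.W.FlatC

set_option autoImplicit false
open Finset

/-!
# The flat ties of a coarse window (class `H54.W.Win`, left arc; port of `H54/Sp/FlatT`)

`noFar` : a flat box contains no far label. `coarseR_of` : helper95's `Coarse` gives `CoarseR`. `box_edge` : flat
boxes at the edges. `box_FlD` : the box around the inner end of a flat tie is flat. `flatD` : the field `flat` of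
the walls of a coarse window.
-/

namespace Pool.Agent.H60.W.N

open Pool.Agent.H33.Q1 (lt tt tt_lt)
open Pool.Agent.H54.W (Win)
open Pool.Agent.H72.W.N
open Pool.Agent.H31.Sp (CQ Ed verS posS)
open Pool.Agent.H42.Sp (Sd)
open Pool.Agent.H13.R45 (gp ev ev_true ev_false)
open Pool.Agent.H39.Q1 (TF mem_TF gm tc gm_gm sgb gm_inj FlatL)
open Pool.Agent.H54.Sp (eS dS Sq hS Sq.mono)
open Pool.Agent.H44.FM.AsmW (TW mem_TW)
open Pool.Agent.H95.W.N
open Pool.Agent.H54.W.N (FlatBox flatX)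

variable {D : Win} {p : Bool} {s0 i r m L N R x y u v X Y n H W : ℤ} {A B : ℤ → ℤ} {s : Sd} {c : Bool}
  {g : ℤ × ℤ} {S : Finset (ℤ × ℤ)} {O : OutB D} {CL : ℤ → Bool}

/-- colours left of the window -/
lemma natc_lft (h0 : -1 ≤ y) (h1 : y ≤ D.h) (hx : x < D.lo) : natc D p x y = colp D (2 * D.h + 1 - y) := by
  have hh := D.hh
  rw [natc_def]
  by_cases a : y < 0
  · rw [if_pos a, show 2 * D.h + 1 - y = 0 + nP D by unfold nP; omega, colp_add, colp_b]
  · rw [if_neg a]
    by_cases b : D.h ≤ y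
    · rw [if_pos b, show 2 * D.h + 1 - y = D.h + 1 by omega, colp_t]
    · rw [if_neg b, colp_l (by omega) (by omega)]
      have := D.hlo y (by omega) (by omega)
      rw [if_pos (by omega)]

/-- colours right of the window -/
lemma natc_rgt (h0 : -1 ≤ y) (h1 : y ≤ D.h) (hx : D.w ≤ x) : natc D p x y = colp D (y + 1) := by
  have hh := D.hh
  rw [natc_def]
  by_cases a : y < 0
  · rw [if_pos a, show y + 1 = 0 by omega, colp_b]
  · rw [if_neg a]
    by_cases b : D.h ≤ y
    · rw [if_pos b, show y + 1 = D.h + 1 by omega, colp_t]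
    · rw [if_neg b, colp_r (by omega) (by omega)]
      have := D.aw y (by omega) (by omega)
      rw [if_neg (by omega)]

/-- **A flat box contains no far label.** -/
theorem noFar (hB : FlatBox D p s0 s i g r) (hO : Ports O N) (hN : r + 3 ≤ N)
    (h : Sq g (r - 1) x y) : lt (x, y) ∉ O.Wo := by
  intro hw
  have hxy : Sq g r x y := h.mono (by omega)
  have hfar := O.far x y hw
  unfold InB at hfar
  have hs := sh_nonneg p
  have hs1 := sh_le p
  have hbox : ∀ x y, (x + 1 < D.lo ∨ D.w ≤ x) → Sq g r x y → natc D p x y = colp D i := by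
    intro x y h1 h2
    refine hB.natc h2 ?_
    by_contra h3
    obtain ⟨k1, k2, k3, k4⟩ := (hB.inP x y h2).2 (by omega)
    have := D.hlo y k1 k2
    omega
  have hh := D.hh
  have hl0 := D.hlo 0 le_rfl (by omega)
  have hw0 := D.aw 0 le_rfl (by omega)
  rcases hO x y (hB.inL hxy hN) hw with ⟨h1, h2, h3, h4⟩ | ⟨h1, h2, h3, h4⟩
  · apply h4
    have k1 := hbox x y (Or.inl (by omega)) hxy
    have k2 := hbox x (y - 1) (Or.inl (by omega)) (by unfold Sq at h ⊢; omega)
    rw [natc_lft (by omega) (by omega) (by omega)] at k1 k2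
    rw [show 2 * D.h + 2 - y = 2 * D.h + 1 - (y - 1) by ring, k1, k2]
  · apply h4
    have k1 := hbox x y (Or.inr h1) hxy
    have k2 := hbox x (y + 1) (Or.inr h1) (by unfold Sq at h ⊢; omega)
    rw [natc_rgt (by omega) (by omega) (by omega)] at k1 k2
    rw [show y + 2 = y + 1 + 1 by ring, k1, k2]

/-- helper95's `CoarseR` from `Coarse` -/
theorem coarseR_of (C : Coarse D n H A B) : Pool.Agent.H95.W.CoarseR D n H (B 0) A where
  hn := C.hn
  HH := C.HH
  hh := C.hh
  ww := by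
    have hn := C.pos
    have hH := C.HH
    have h1 : 0 < D.h := by rw [C.hh]; exact mul_pos hn hH
    have := C.b 0 le_rfl h1
    rwa [Int.zero_ediv] at this
  AW := fun Y h0 h1 => by
    rw [← C.B_eq h0 h1 le_rfl C.HH]
    exact C.AB Y h0 h1
  a := C.a

theorem coarseRC_of (C : CoarseC D n H A B CL) : Pool.Agent.H95.W.CoarseRC D n H (B 0) A CL where
  toCoarseR := coarseR_of C.toCoarse
  cl := C.cl

section

variable (hC : CoarseC D n H A B CL) (hcut : colp D (s0 - 1) ≠ colp D s0)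

include hC hcut

/-- flat boxes at the edges -/
theorem box_edge (hr : 2 * r + 8 ≤ n) (w : KL H A B)
    (hl : if verS w.1.1 = true then g.1 + sh p = n * w.1.2.1 else g.2 = n * w.1.2.2)
    (h1 : if verS w.1.1 = true then n * w.1.2.2 + r + 3 ≤ g.2 ∧ g.2 + r + 3 ≤ n * w.1.2.2 + n
      else n * w.1.2.1 + r + 3 ≤ g.1 + sh p ∧ g.1 + sh p + r + 3 ≤ n * w.1.2.1 + n) :
    FlatBox D p s0 w.1.1 (fwD D n H A B s0 w) g r := by
  have C := hC.toCoarse
  have hR := coarseR_of C
  have hRC := coarseRC_of hC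
  have hB := fun Y h0 h1 => C.B_eq (X := Y) (Y := 0) h0 h1 le_rfl C.HH
  obtain ⟨⟨s, X, Y⟩, hw⟩ := w
  rw [mem_EdL] at hw
  obtain ⟨hw, hsR⟩ := hw
  unfold fwD
  simp only at *
  cases s
  · simp only [verS, if_true] at *
    obtain ⟨⟨e1, e2, e3, e4⟩, e5⟩ := hw
    have e6 : X = A Y := by
      by_contra h
      exact e5 ⟨e1, e2, by omega, by omega⟩
    subst e6
    exact Pool.Agent.H22.W.flat_L hRC hcut hr e1 e2 hl h1.1 h1.2
  · exact absurd rfl hsR
  · simp only [verS, Bool.false_eq_true, if_false] at *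
    obtain ⟨⟨e1, e2, e3, e4⟩, e5⟩ := hw
    have e6 := hB Y e1 e2
    unfold hA
    rw [if_pos ⟨e1, e2, e3, e4⟩]
    by_cases c1 : Y = 0
    · subst c1
      rw [if_pos rfl]
      exact Pool.Agent.H22.W.flat_B hR hr e3 e4 (by rw [hl]; ring) h1.1 h1.2
    rw [if_neg c1]
    have e7 := hB (Y - 1) (by omega) (by omega)
    have c2 : X < A (Y - 1) := by
      by_contra h
      exact e5 ⟨by omega, by omega, by omega, by omega⟩
    exact Pool.Agent.H22.W.flat_F hRC hcut hr (by omega) e2 e3 c2 hl h1.1 h1.2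
  · simp only [verS, Bool.false_eq_true, if_false] at *
    obtain ⟨e5, e1, e2, e3, e4⟩ := hw
    have e6 := hB (Y - 1) e1 e2
    unfold hA
    rw [if_neg e5]
    by_cases c1 : Y = H
    · subst c1
      rw [if_pos rfl]
      exact Pool.Agent.H22.W.flat_T hR hr e3 (by omega) (by rw [hl, hR.hh]) h1.1 h1.2
    rw [if_neg c1]
    have e7 := hB Y (by omega) (by omega)
    have c2 : X < A Y := by
      by_contra h
      exact e5 ⟨by omega, by omega, by omega, by omega⟩
    exact Pool.Agent.H22.W.flat_C hRC hcut hr (by omega) (by omega) e3 c2 hl h1.1 h1.2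

end

/-- **The box around the inner end of a flat tie is flat.** -/
theorem box_FlD (hC : CoarseC D n H A B CL) (hcut : colp D (s0 - 1) ≠ colp D s0)
    (hB : ArcB D n H A B p s0) {w w0 : KL H A B} (hr : 2 * r + 8 ≤ n) {e : ℤ × ℤ}
    (he : e ∈ FlD D n H A B p w0 (r + 3) w) :
    ∃ g, bA D p e = gp g ∧ FlatBox D p s0 w.1.1 (fwD D n H A B s0 w) g r ∧
      ev g = colp D (fwD D n H A B s0 w) := by
  obtain ⟨h1, h2, h3, h4⟩ := mem_FlD.1 he
  obtain ⟨u, v, s, c, rfl, h⟩ := exists_tie h1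
  obtain ⟨k1, k2, k3, k4⟩ := tie_wall (w0 := w0) hB hC.toCoarse h
  rw [h2] at k1 k2 k3 k4
  subst k1
  have hc : c = colp D (fwD D n H A B s0 w) := by
    rw [← k4]
    exact h.co.symm
  refine ⟨_, h.b, ?_, by rw [Pool.Agent.H54.W.N.ev_bt (t := (u, v)) h.odd, hc]⟩
  rw [k2]
  generalize poD D p (lt (u, v)) = z at h3 h4 k3 k2
  refine box_edge hC hcut hr w ?_ ?_
  · unfold gW lnW
    split_ifs <;> simp only <;> ring
  · unfold gW
    unfold bW at h3 h4
    split_ifs at h3 h4 ⊢ <;> simp only <;> omega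

/-- **The field `flat` of the walls of a coarse window.** -/
theorem flatD (hC : CoarseC D n H A B CL) (hcut : colp D (s0 - 1) ≠ colp D s0)
    (hB : ArcB D n H A B p s0) {w w0 : KL H A B} (hn : 4 * R + 20 ≤ n) (_hR : 0 ≤ R) (hS' : S ⊆ FR D p)
    (hm : 2 * R + 3 ≤ m) (hL : 2 * R + 7 ≤ L) (hO : Ports O N) (hN : 2 * R + 9 ≤ N) {e : ℤ × ℤ}
    (he : e ∈ FlD D n H A B p w0 (2 * R + 9) w) :
    FlatL (WA O p S) (EN D p) (TA D p) (TF (TA D p) (fmA D p s0) (fwD D n H A B s0 w))
      (WlA D p s0 L S (fwD D n H A B s0 w)) (LaA D p s0 m (fwD D n H A B s0 w)) (bA D p) (oA D p)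
      (colp D (fwD D n H A B s0 w)) (epD H A B w) (deD D n H A B s0 w) (bA D p e) (R + 1) := by
  obtain ⟨g, h1, h2, h3⟩ := box_FlD hC hcut hB (r := 2 * R + 6) (by omega)
    (by rw [show 2 * R + 6 + 3 = 2 * R + 9 by ring]; exact he)
  rw [h1]
  unfold epD deD
  refine flatX (by rw [show 2 * (R + 1) + 4 = 2 * R + 6 by ring]; exact h2) h3 hS'
    (by omega) (by omega) fun _ x y hx => ?_
  exact noFar h2 hO (by omega) (hx.mono (by omega))

end Pool.Agent.H60.W.N
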