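import Mathlib
import Pool.Agent.H60.W.C.FlatD
import Pool.Agent.H49.W.AsmW2
import Pool.Agent.H72.W.RootI
import Pool.Agent.Q1.M6e.Wn.DatA

set_option autoImplicit false
open Finset

/-!
# The walls `WallsV` of the left arc of a coarse window

`walls_mkV` : `WallsV` from the ties of the walls. `wallsD` : the walls of `datD`, ties at distance `2 R + 9` from the
ends of their edge. `rk_injD` : the rank is injective. `endD` : the other ties are near an end.
-/

namespace Pool.Agent.H60.W.N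

open Pool.Agent.H33.Q1 (lt tt tt_lt)
open Pool.Agent.H54.W (Win)
open Pool.Agent.H72.W.N
open Pool.Agent.H31.Sp (CQ Ed verS posS)
open Pool.Agent.H42.Sp (Sd)
open Pool.Agent.H13.R45 (gp ev ev_true ev_false Ag OutF)
open Pool.Agent.H39.Q1 (TF mem_TF gm tc gm_gm sgb gm_inj FlatL)
open Pool.Agent.H44.FM.AsmW (TW mem_TW)
open Pool.Agent.H95.W.N
open Pool.Agent.H60.Q1 (wp)
open Pool.Agent.H99.NC (inR inR_iff)
open Pool.Agent.H49.W (WallsV FlatWallV)
open Pool.Agent.Q1.M6e.Wn (rkW rkW_le cw rk_inj_mk)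
open Pool.Agent.H75.Perc (lab)
open Pool.Agent.H39.Q1 (bx)

section

variable {ι κ : Type} [DecidableEq ι] [Fintype κ] {X : Pool.Agent.Q1.Env}
  {W Bb B TT Sg : Finset (ℤ × ℤ)} {fm : ℤ × ℤ → ι} {co : ι → Bool} {Wl La : ι → Finset (ℤ × ℤ)}
  {b o : ℤ × ℤ → ℤ × ℤ} {wl : ℤ × ℤ → κ} {fw : κ → ι} {ε : κ → Bool × Bool} {δ : κ → ℤ × ℤ}
  {FlT : κ → Finset (ℤ × ℤ)} {x0 : κ → ℤ × ℤ} {N : κ → ℤ} {R : ℤ}

/-- **The walls from their ties.** -/
theorem walls_mkV [DecidableEq κ]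
    (hfww : ∀ w, Pool.Agent.H59.W.FWw TT fm b (La (fw w)) (fw w) (ε w) (TW TT wl w) (x0 w) (N w))
    (hfw : ∀ e ∈ TT, fm e = fw (wl e)) (hsub : ∀ w, FlT w ⊆ TW TT wl w)
    (hloc : ∀ w, ∀ e ∈ FlT w, ∀ e' ∈ TF TT fm (fw w), inR (b e) R (b e') → wl e' = w)
    (hfl : ∀ w, ∀ e ∈ FlT w, FlatL W Bb TT (TF TT fm (fw w)) (Wl (fw w)) (La (fw w)) b o (co (fw w))
      (ε w) (δ w) (b e) (R + 1))
    (hroot : ∀ w, ∀ e ∈ FlT w, lab X.c0 ∉ bx (co (fw w)) (b e) R)
    (hcs : ∀ w, ∀ e ∈ FlT w, ∀ l ∈ Sg, l ∉ bx (co (fw w)) (b e) R) :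
    WallsV X W Bb TT Sg fm co Wl La b o (rkW TT wl ε b) wl fw ε δ FlT R where
  hfl := fun w =>
    { sub := (hsub w).trans (hfww w).sub
      line := fun e he e' he' => by
        obtain ⟨t, -, h1⟩ := (hfww w).wall e (hsub w he)
        obtain ⟨t', -, h2⟩ := (hfww w).wall e' (hsub w he')
        rw [h1, h2]
        unfold wp
        ring
      inj := (hfww w).inj
      rk := fun e he e' he' h => by
        have h1 : wl e = w := (mem_TW.1 (hsub w he)).2
        have h2 : wl e' = w := by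
          rcases h with h | h
          · exact hloc w e he e' he' h
          · exact (mem_TW.1 (hsub w h)).2
        rw [rkW_le (h1.trans h2.symm)]
        unfold cw
        rw [h1, h2]
      flat := hfl w
      root := hroot w
      cs := hcs w }
  hfw := hfw
  hwl := fun w e he => (mem_TW.1 (hsub w he)).2
  hloc := hloc

end

variable {D : Win} {p : Bool} {s0 i r m L R x y u v X Y n H : ℤ} {A B : ℤ → ℤ} {s : Sd} {c : Bool}
  {g : ℤ × ℤ} {S Sg : Finset (ℤ × ℤ)} {O : OutB D} {CL : ℤ → Bool} {hS : S ⊆ FR D p} {w0 : KL H A B}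

/-- **The walls of the left arc of a coarse window.** -/
theorem wallsD (hC : CoarseC D n H A B CL) (hcut : colp D (s0 - 1) ≠ colp D s0)
    (hB : ArcB D n H A B p s0) (hO : OutOK O L) (hR : 0 ≤ R) (hn : 4 * R + 20 ≤ n) (hm : 2 * R + 3 ≤ m)
    (hL : 2 * R + 9 ≤ L) (hSg : ∀ l ∈ Sg, ∀ x y, lt (x, y) = l → DpI D p (2 * R) x y) :
    WallsV (XA O p S hS) (WA O p S) (EN D p) (TA D p) Sg (fmA D p s0) (colp D) (WlA D p s0 L S)
      (LaA D p s0 m) (bA D p) (oA D p) (rkW (TA D p) (wlD D n H A B p w0) (epD H A B) (bA D p))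
      (wlD D n H A B p w0) (fwD D n H A B s0) (epD H A B) (deD D n H A B s0)
      (FlD D n H A B p w0 (2 * R + 9)) R := by
  have hE : EdgA D n H A B p s0 := edgA hB hC.toCoarse
  have hq := fun w => hqD (p := p) hC.toCoarse (show 16 ≤ n by omega) w
  refine walls_mkV (fun w => fww_D hE hq w0 w m) (hE.hfw w0) (hsubD w0 _)
    (hlocD hB hC.toCoarse w0 (by omega) (by omega))
    (fun w e he => flatD hC hcut hB hn hR hS hm (by omega) hO.port hL he) (fun w e he => ?_)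
    (fun w e he l hl => ?_)
  · have h4 := hE.hfw w0 e (mem_TW.1 (hsubD w0 _ w he)).1
    rw [(mem_TW.1 (hsubD w0 _ w he)).2] at h4
    have h5 := root_A (O := O) (L := L) (R := R) (s0 := s0) hO.root (by omega)
      (mem_TW.1 (hsubD w0 _ w he)).1
    rwa [h4] at h5
  · have h4 := hE.hfw w0 e (mem_TW.1 (hsubD w0 _ w he)).1
    rw [(mem_TW.1 (hsubD w0 _ w he)).2] at h4
    have h5 := cs_A (l := l) (m := 2 * R) (R := R) (s0 := s0) (hSg l hl) le_rfl
      (mem_TW.1 (hsubD w0 _ w he)).1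
    rwa [h4] at h5

/-- **The rank is injective.** -/
theorem rk_injD (hB : ArcB D n H A B p s0) (C : Coarse D n H A B) (hn : 16 ≤ n) (w0 : KL H A B) :
    ∀ e ∈ TA D p, ∀ e' ∈ TA D p,
      rkW (TA D p) (wlD D n H A B p w0) (epD H A B) (bA D p) e =
        rkW (TA D p) (wlD D n H A B p w0) (epD H A B) (bA D p) e' → e = e' := by
  have hE : EdgA D n H A B p s0 := edgA hB C
  have hq := fun w => hqD (p := p) C hn w
  exact rk_inj_mk (La := LaA D p s0 0) (fun w => fww_D hE hq w0 w 0) (hE.hfw w0)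

/-- **The ties which are not flat are near an end of their wall.** -/
theorem endD (hB : ArcB D n H A B p s0) (C : Coarse D n H A B) (hn : 16 ≤ n) (w0 w : KL H A B)
    (hR : 8 ≤ R) {e : ℤ × ℤ} (he : e ∈ TW (TA D p) (wlD D n H A B p w0) w)
    (h : e ∉ FlD D n H A B p w0 (2 * R + 9) w) :
    inR (wp 1 (x0D D n H A B p s0 w) 0) (2 * R) (gm (epD H A B w) (bA D p e)) ∨
      inR (wp 1 (x0D D n H A B p s0 w) (ND D n H A B p s0 w)) (2 * R) (gm (epD H A B w) (bA D p e)) :=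
  end_D (edgA hB C) (fun w => hqD (p := p) C hn w) w0 w (r := 2 * R + 9) (ρ := 2 * R) (by omega) he h

end Pool.Agent.H60.W.N
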